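import Mathlib
import Pool.Agent.H63.MT4

set_option autoImplicit false

namespace Pool.Agent.Results.MP_e18332_lc.Counter

/-- Finite simple graphs. -/
structure Gr where
  V : Type
  fin : Finite V
  G : SimpleGraph V

/-- FO+MOD formulas over the edge relation and `c` unary predicates, with free variables among
`n` variables; `ex φ` and `md b a φ` (counting `a` modulo `b`, with `a < b`) bind variable `0`. -/
inductive Fm (c : ℕ) : ℕ → Type
  | eq {n : ℕ} (i j : Fin n) : Fm c n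
  | adj {n : ℕ} (i j : Fin n) : Fm c n
  | col {n : ℕ} (k : Fin c) (i : Fin n) : Fm c n
  | not {n : ℕ} (φ : Fm c n) : Fm c n
  | and {n : ℕ} (φ χ : Fm c n) : Fm c n
  | ex {n : ℕ} (φ : Fm c (n + 1)) : Fm c n
  | md {n : ℕ} (b : ℕ) (a : Fin b) (φ : Fm c (n + 1)) : Fm c n

/-- FO formulas: no modulo-counting quantifier occurs. -/
def IsFO {c : ℕ} : {n : ℕ} → Fm c n → Prop
  | _, .eq _ _ => True
  | _, .adj _ _ => True
  | _, .col _ _ => True
  | _, .not φ => IsFO φ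
  | _, .and φ χ => IsFO φ ∧ IsFO χ
  | _, .ex φ => IsFO φ
  | _, .md _ _ _ => False

/-- Satisfaction in `G` expanded by the vertex subsets `C`. -/
def Sat {c : ℕ} (G : Gr) (C : Fin c → G.V → Prop) : {n : ℕ} → Fm c n → (Fin n → G.V) → Prop
  | _, .eq i j, x => x i = x j
  | _, .adj i j, x => G.G.Adj (x i) (x j)
  | _, .col l i, x => C l (x i)
  | _, .not φ, x => ¬ Sat G C φ x
  | _, .and φ χ, x => Sat G C φ x ∧ Sat G C χ x
  | _, .ex φ, x => ∃ z, Sat G C φ (Fin.cons z x)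
  | _, .md b a φ, x => {z | Sat G C φ (Fin.cons z x)}.ncard % b = a.1

/-- FO+MOD-transductions without copying. -/
structure Transd where
  c : ℕ
  ν : Fm c 1
  η : Fm c 2

/-- `H` is (isomorphic to) a member of `T(G)`. -/
def Transd.Out (T : Transd) (G H : Gr) : Prop :=
  ∃ (C : Fin T.c → G.V → Prop) (f : H.V → G.V), Function.Injective f ∧
    (∀ x, x ∈ Set.range f ↔ Sat G C T.ν ![x]) ∧
    ∀ u v, H.G.Adj u v ↔ u ≠ v ∧ Sat G C T.η ![f u, f v] ∧ Sat G C T.η ![f v, f u]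

/-- `D ⊆ T(C)`. -/
def Transd.Covers (T : Transd) (C D : Set Gr) : Prop := ∀ H ∈ D, ∃ G ∈ C, T.Out G H

/-- Classes with members of unbounded order (hence infinite up to isomorphism). -/
def Unbounded (C : Set Gr) : Prop := ∀ n, ∃ G ∈ C, n ≤ Nat.card G.V

open H63.MT H89.SP

/-- source graphs -/
def src (S : H63.MT.Seq) (m : ℕ) : Gr := ⟨Fin (S.n m), inferInstance, ⟨S.GA m,
  ⟨fun _ _ ⟨h, z, p, q⟩ => ⟨by tauto, z, q.symm, p.symm⟩⟩, ⟨fun _ h => by have := h.1; tauto⟩⟩⟩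

theorem td (S : H63.MT.Seq) (μ : ℕ → ℕ) {c n : ℕ} (C : ∀ j, Fin c → (src S (μ j)).V → Prop)
    (φ : Fm c n) (h : IsFO φ) : ∃ P, TD (fun j => S.host (μ j)) (fun j => S.R (μ j)) P ∧
      ∀ j (u : Fin n → Fin (S.n (μ j))), P j (fun i => .inl (u i)) ↔ Sat (src S (μ j)) (C j) φ u := by
  have col : ∀ {n} (D : ∀ j, Fin (S.n (μ j)) → Prop) (a : Fin n),
      TD (fun j => S.host (μ j)) (fun j => S.R (μ j)) fun j x => ∃ v, x a = .inl v ∧ D j v :=
    fun D a => td_col (V := fun j => Fin (S.n (μ j)) ⊕ Fin (S.M (μ j)))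
      (fun j x => ∃ v, x = Sum.inl v ∧ D j v) (fun j e he ⟨v, q, _⟩ =>
      he (Finset.mem_image.2 ⟨v, Finset.mem_univ _, q.symm⟩)) a
  induction φ with
  | eq i j => exact ⟨_, td_eq i j, fun _ _ => Sum.inl_injective.eq_iff⟩
  | adj a b =>
    refine ⟨_, td_and (td_and (td_not (td_and (col (fun _ v => v.1 % 3 = 0) a)
      (col (fun _ v => v.1 % 3 = 0) b))) (td_not (td_and (col (fun _ v => ¬ v.1 % 3 = 0) a)
      (col (fun _ v => ¬ v.1 % 3 = 0) b)))) (td_ex (td_and (td_adj a.succ 0) (td_adj 0 b.succ))),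
      fun j u => and_congr ?_ Iff.rfl⟩
    simp only [Sum.inl.injEq, exists_eq_left']
    tauto
  | col k i => exact ⟨_, col (fun j => C j k) i, fun _ _ => by simp [Sat]⟩
  | not _ ih =>
    obtain ⟨P, p, q⟩ := ih h
    exact ⟨_, td_not p, fun j u => not_congr (q j u)⟩
  | and _ _ ih ih' =>
    obtain ⟨P, p, q⟩ := ih h.1
    obtain ⟨P', p', q'⟩ := ih' h.2
    exact ⟨_, td_and p p', fun j u => and_congr (q j u) (q' j u)⟩
  | ex φ ih =>
    obtain ⟨P, p, q⟩ := ih h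
    have e : ∀ j (u : Fin _ → Fin (S.n (μ j))) (w : Fin (S.n (μ j))),
        P j (Fin.cons (.inl w) fun i => .inl (u i)) ↔ Sat (src S (μ j)) (C j) φ (Fin.cons w u) :=
      fun j u w => by
        rw [← q]
        exact iff_of_eq (congrArg _ (funext fun i => Fin.cases rfl (fun _ => rfl) i))
    refine ⟨_, td_ex (td_and (col (fun _ _ => True) 0) p), fun j u => ⟨?_, ?_⟩⟩
    · rintro ⟨z, ⟨w, k, -⟩, k'⟩
      obtain rfl : z = Sum.inl w := k
      exact ⟨w, (e j u w).1 k'⟩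
    · rintro ⟨w, k⟩
      exact ⟨.inl w, ⟨w, rfl, trivial⟩, (e j u w).2 k⟩
  | md => exact h.elim

theorem result : ∃ C D : Set Gr, Unbounded C ∧ Unbounded D ∧ (∃ T : Transd, T.Covers C D) ∧
    ¬ ∃ T : Transd, IsFO T.ν ∧ IsFO T.η ∧ T.Covers C D := by
  obtain ⟨S⟩ := H63.MT.seq
  let H : ℕ → Gr := fun m => ⟨{v : Fin (S.n m) // v.1 % 3 = 0}, inferInstance, ⟨S.HA m,
    ⟨fun _ _ k => ⟨k.1.symm, k.2.2, k.2.1⟩⟩, ⟨fun _ k => k.1 rfl⟩⟩⟩
  refine ⟨Set.range (src S), Set.range H, fun n => ⟨_, ⟨n, rfl⟩, ?_⟩,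
    fun n => ⟨_, ⟨4 * n, rfl⟩, ?_⟩, ⟨⟨2, .col 0 0,
      .md 2 1 (.and (.and (.adj 1 0) (.adj 0 2)) (.col 1 0))⟩, ?_⟩, ?_⟩
  · have := S.s1 n
    have := S.s2 n
    simp only [src, Nat.card_eq_fintype_card, Fintype.card_fin]
    omega
  · have := S.s1 (4 * n)
    have := S.s2 (4 * n)
    have := cls_card (S.n (4 * n)) 0 (by omega) (by omega)
    simp only [H, Nat.card_eq_fintype_card, Fintype.card_subtype]
    omega
  · rintro _ ⟨m, rfl⟩
    exact ⟨_, ⟨m, rfl⟩, ![fun v => v.1 % 3 = 0, fun v => v.1 % 3 = 2], Subtype.val,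
      Subtype.val_injective, fun x => ⟨fun ⟨y, e⟩ => e ▸ y.2, fun k => ⟨⟨x, k⟩, rfl⟩⟩,
      fun u v => Iff.rfl⟩
  · rintro ⟨T, -, h1, h⟩
    choose G g1 C f f1 f2 f3 using fun m => h (H m) ⟨m, rfl⟩
    choose μ hμ using g1
    obtain rfl : G = fun m => src S (μ m) := funext fun m => (hμ m).symm
    obtain ⟨P, p, q⟩ := td S μ C T.η h1
    refine H63.MT.Seq.core μ f f1 p fun m u v => (f3 m u v).trans (and_congr_right fun _ =>
      and_congr ?_ ?_)
    · rw [← q]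
      exact iff_of_eq (congrArg _ (funext fun i => by fin_cases i <;> rfl))
    · rw [← q]
      exact iff_of_eq (congrArg _ (funext fun i => by fin_cases i <;> rfl))

end Pool.Agent.Results.MP_e18332_lc.Counter
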